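import Mathlib

set_option autoImplicit false

namespace Pool.Agent.Results.MP_6d30b5_co.Cex

open Classical Finset

noncomputable def s3 {n : ℕ} (G : SimpleGraph (Fin n)) : ℕ :=
  Set.ncard {S : Finset (Fin n) | S.card = 3 ∧ (G.induce (S : Set (Fin n))).Connected}

noncomputable def m (n e : ℕ) : ℕ :=
  sInf {s | ∃ G : SimpleGraph (Fin n), G.edgeSet.ncard = e ∧ s3 G = s}

variable {n : ℕ} (G : SimpleGraph (Fin n))

noncomputable def W (a b c : Fin n) : ℕ :=
  if G.Adj a b ∧ G.Adj b c ∧ a ≠ c then (if G.Adj a c then 1 else 3) else 0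

lemma fib (S : Finset (Fin n)) (h : S.card = 3) : ∑ a ∈ S, ∑ b ∈ S, ∑ c ∈ S, W G a b c ≤ 6 := by
  obtain ⟨x, y, z, h1, h2, h3, rfl⟩ := card_eq_three.1 h
  have e : ∀ f : Fin n → ℕ, ∑ a ∈ ({x, y, z} : Finset (Fin n)), f a = f x + f y + f z := fun f => by
    rw [sum_insert (by simp [h1, h2]), sum_pair h3, add_assoc]
  simp only [e, W, G.irrefl, G.adj_comm y x, G.adj_comm z x, G.adj_comm z y, ne_eq, h1, h2, h3,
    h1.symm, h2.symm, h3.symm]
  by_cases p : G.Adj x y <;> by_cases q : G.Adj x z <;> by_cases r : G.Adj y z <;> simp [p, q, r]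

lemma conn {a b c : Fin n} (h1 : G.Adj a b) (h2 : G.Adj b c) :
    (G.induce (({a, b, c} : Finset (Fin n)) : Set (Fin n))).Connected := by
  rw [SimpleGraph.connected_iff_exists_forall_reachable]
  refine ⟨⟨b, by simp⟩, fun ⟨w, hw⟩ => ?_⟩
  simp only [coe_insert, coe_singleton, Set.mem_insert_iff, Set.mem_singleton_iff] at hw
  rcases hw with rfl | rfl | rfl
  · exact SimpleGraph.Adj.reachable h1.symm
  · rfl
  · exact SimpleGraph.Adj.reachable h2

lemma tot : ∑ a, ∑ b, ∑ c, W G a b c ≤ 6 * s3 G := by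
  let C : Finset (Finset (Fin n)) :=
    univ.filter fun S => S.card = 3 ∧ (G.induce (S : Set (Fin n))).Connected
  have hC : s3 G = C.card := by
    rw [s3, ← Set.ncard_coe_finset]; congr 1; ext S; simp [C]
  calc ∑ a, ∑ b, ∑ c, W G a b c
      ≤ ∑ a, ∑ b, ∑ c, ∑ S ∈ C, (if a ∈ S ∧ b ∈ S ∧ c ∈ S then W G a b c else 0) := by
        refine sum_le_sum fun a _ => sum_le_sum fun b _ => sum_le_sum fun c _ => ?_
        by_cases h : G.Adj a b ∧ G.Adj b c ∧ a ≠ c
        · have hm : ({a, b, c} : Finset (Fin n)) ∈ C := mem_filter.2 ⟨mem_univ _,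
            card_eq_three.2 ⟨a, b, c, h.1.ne, h.2.2, h.2.1.ne, rfl⟩, conn G h.1 h.2.1⟩
          refine le_trans ?_ (single_le_sum (f := fun S => if a ∈ S ∧ b ∈ S ∧ c ∈ S then W G a b c
            else 0) (fun _ _ => Nat.zero_le _) hm)
          simp
        · simp [W, h]
    _ = ∑ S ∈ C, ∑ a ∈ S, ∑ b ∈ S, ∑ c ∈ S, W G a b c := by
        simp only [← sum_comm (s := C)]
        refine sum_congr rfl fun S _ => ?_
        simp only [ite_and, sum_ite_irrel, sum_const_zero, sum_ite_mem, univ_inter]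
    _ ≤ ∑ _S ∈ C, 6 := sum_le_sum fun S hS => fib G S (mem_filter.1 hS).2.1
    _ = 6 * s3 G := by simp [hC, mul_comm]

noncomputable def O : Finset (Fin n × Fin n × Fin n) :=
  univ.filter fun t => G.Adj t.1 t.2.1 ∧ G.Adj t.2.1 t.2.2 ∧ t.1 ≠ t.2.2 ∧ ¬ G.Adj t.1 t.2.2

lemma split : ∑ a, ∑ b, ∑ c, W G a b c + ∑ b, G.degree b =
    ∑ b, G.degree b ^ 2 + 2 * (O G).card := by
  have h1 : ∀ a b c, W G a b c + (if G.Adj a b ∧ a = c then 1 else 0) =
      (if G.Adj b a then 1 else 0) * (if G.Adj b c then 1 else 0) +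
      2 * (if G.Adj a b ∧ G.Adj b c ∧ a ≠ c ∧ ¬ G.Adj a c then 1 else 0) := fun a b c => by
    unfold W
    rw [G.adj_comm b a]
    by_cases e : a = c
    · subst e
      rw [G.adj_comm b a]
      by_cases p : G.Adj a b <;> simp [p]
    · by_cases p : G.Adj a b <;> by_cases q : G.Adj b c <;> by_cases r : G.Adj a c <;>
        simp [p, q, r, e]
  have hd : ∀ b, G.degree b = ∑ a, if G.Adj b a then 1 else 0 := fun b => by
    rw [← card_filter, ← SimpleGraph.card_neighborFinset_eq_degree,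
      SimpleGraph.neighborFinset_eq_filter]
  have h2 : ∑ b, G.degree b = ∑ a, ∑ b, ∑ c, if G.Adj a b ∧ a = c then 1 else 0 := by
    simp only [hd, ite_and]
    refine sum_congr rfl fun a _ => sum_congr rfl fun b _ => ?_
    split_ifs <;> simp
  have h3 : ∑ b, G.degree b ^ 2 =
      ∑ a, ∑ b, ∑ c, (if G.Adj b a then 1 else 0) * (if G.Adj b c then 1 else 0) := by
    rw [sum_comm]
    simp only [hd, sq, sum_mul_sum]
  have h4 : (O G).card =
      ∑ a, ∑ b, ∑ c, if G.Adj a b ∧ G.Adj b c ∧ a ≠ c ∧ ¬ G.Adj a c then 1 else 0 := by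
    rw [O, card_filter]
    simp only [Fintype.sum_prod_type]
  rw [h2, h3, h4]
  simp only [mul_sum, ← sum_add_distrib, h1]

lemma O_big {a b c : Fin n} (h : (a, b, c) ∈ O G) : 2 * G.degree a ≤ (O G).card := by
  obtain ⟨h1, h2, h3, h4⟩ := (mem_filter.1 h).2
  simp only at h1 h2 h3 h4
  let g : Fin n → Fin n × Fin n × Fin n := fun x =>
    if x = b then (a, b, c) else if ¬ G.Adj x b then (x, a, b)
    else if ¬ G.Adj x c then (x, b, c) else (a, x, c)
  let s : Fin n × Fin n × Fin n → Finset (Fin n) := fun t => {t.1, t.2.1, t.2.2}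
  have gO : ∀ x, G.Adj a x → g x ∈ O G ∧ x ∈ s (g x) ∧ (∀ y ∈ s (g x), G.Adj a y → y = x ∨ y = b) ∧
      (x = b → ∀ y ∈ s (g x), G.Adj a y → y = b) := by
    intro x hx
    have hc : ∀ y, G.Adj a y → y ≠ c := fun y hy e => h4 (e ▸ hy)
    simp only [g, s]
    split_ifs with e1 e2 e3
    · subst e1
      refine ⟨h, by simp, fun y hy hy' => Or.inr ?_, fun _ y hy hy' => ?_⟩ <;>
        simpa [hy'.ne', hc y hy'] using hy
    · refine ⟨mem_filter.2 ⟨mem_univ _, hx, e3, h3, h4⟩, by simp, fun y hy hy' => Or.inl ?_,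
        fun e => absurd e e1⟩
      simpa [hy'.ne', hc y hy'] using hy
    · refine ⟨mem_filter.2 ⟨mem_univ _, e2, h2, hc x hx, e3⟩, by simp, fun y hy hy' => ?_,
        fun e => absurd e e1⟩
      simpa [hc y hy'] using hy
    · refine ⟨mem_filter.2 ⟨mem_univ _, hx.symm, h1, e1, e2⟩, by simp, fun y hy hy' => ?_,
        fun e => absurd e e1⟩
      simpa [hy'.ne'] using hy
  have inj : ∀ x y, G.Adj a x → G.Adj a y → s (g x) = s (g y) → x = y := by
    intro x y hx hy e
    have p1 := (gO y hy).2.2.1 x (e ▸ (gO x hx).2.1) hx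
    have p2 := (gO x hx).2.2.1 y (e ▸ (gO y hy).2.1) hy
    rcases p1 with p1 | p1
    · exact p1
    · exact p1.trans ((gO x hx).2.2.2 p1 y (e ▸ (gO y hy).2.1) hy).symm
  let r : Fin n × Fin n × Fin n → Fin n × Fin n × Fin n := fun t => (t.2.2, t.2.1, t.1)
  have sr : ∀ t, s (r t) = s t := fun t => by ext; simp [s, r]; tauto
  have := card_le_card_of_injOn (s := G.neighborFinset a ×ˢ (univ : Finset Bool)) (t := O G)
    (fun x => if x.2 then g x.1 else r (g x.1)) (by
      rintro ⟨x, _ | _⟩ hx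
      · have := (mem_filter.1 (gO x (by simpa using hx)).1).2
        exact mem_coe.2 (mem_filter.2 ⟨mem_univ _, this.2.1.symm, this.1.symm, this.2.2.1.symm,
          fun h => this.2.2.2 h.symm⟩)
      · exact (gO x (by simpa using hx)).1) (by
      rintro ⟨x, i⟩ hx ⟨y, j⟩ hy e
      have hx : G.Adj a x := by simpa using hx
      have hy : G.Adj a y := by simpa using hy
      have e' : x = y := inj x y hx hy (by
        have := congrArg s e
        cases i <;> cases j <;> simpa [sr] using this)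
      subst e'
      have hne := (mem_filter.1 (gO x hx).1).2.2.2.1
      cases i <;> cases j
      · rfl
      · exact absurd (congrArg Prod.fst e).symm hne
      · exact absurd (congrArg Prod.fst e) hne
      · rfl)
  simpa [mul_comm] using this

lemma lower (G : SimpleGraph (Fin 35)) (h : G.edgeSet.ncard = 86) : 115 ≤ s3 G := by
  by_contra hn
  have hs : ∑ b, G.degree b = 172 := by
    rw [SimpleGraph.sum_degrees_eq_twice_card_edges, ← Set.ncard_coe_finset,
      SimpleGraph.coe_edgeFinset, h]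
  have h1 := tot G
  have h2 := split G
  let X : Fin 35 → ℕ := fun b => G.degree b ^ 2 + 20 - 9 * G.degree b
  have hX : ∀ b, X b + 9 * G.degree b = G.degree b ^ 2 + 20 := fun b => by
    have : 9 * G.degree b ≤ G.degree b ^ 2 + 20 := by
      rcases Nat.lt_or_ge (G.degree b) 5 with h | h
      · interval_cases G.degree b <;> norm_num
      · nlinarith
    simp only [X]; omega
  have h3 : ∑ b, X b + 9 * 172 = ∑ b, G.degree b ^ 2 + 35 * 20 := by
    rw [← hs, mul_sum, ← sum_add_distrib]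
    simp only [hX, sum_add_distrib]
    simp
  have h4 : ∑ b, X b + 2 * (O G).card ≤ 8 := by omega
  by_cases hO : (O G).Nonempty
  · obtain ⟨⟨a, b, c⟩, ht⟩ := hO
    have h5 := O_big G ht
    have h6 := single_le_sum (f := X) (fun _ _ => Nat.zero_le _) (mem_univ a)
    have h7 := hX a
    have h8 := card_pos.2 ⟨_, ht⟩
    have h9 : G.degree a ≤ 2 := by omega
    interval_cases G.degree a <;> omega
  have cl : ∀ a b, G.Adj a b → G.degree a ≤ G.degree b := fun a b hab => by
    have : insert a (G.neighborFinset a) ⊆ insert b (G.neighborFinset b) := by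
      intro c hc
      simp only [mem_insert, SimpleGraph.mem_neighborFinset] at hc ⊢
      rcases hc with rfl | hc
      · exact Or.inr hab.symm
      · by_contra hn
        push Not at hn
        exact hO ⟨(b, a, c), mem_filter.2 ⟨mem_univ _, hab.symm, hc, Ne.symm hn.1, hn.2⟩⟩
    have := card_le_card this
    rw [card_insert_of_notMem (by simp), card_insert_of_notMem (by simp)] at this
    simpa using this
  have cls : ∀ (f : ℕ → ℕ) a, (G.degree a + 1) * f (G.degree a) ≤ ∑ b, f (G.degree b) := by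
    intro f a
    refine le_trans ?_ (sum_le_sum_of_subset (subset_univ (insert a (G.neighborFinset a))))
    rw [sum_congr rfl (g := fun _ => f (G.degree a)) fun b hb => by
      rcases mem_insert.1 hb with rfl | hb
      · rfl
      · have hb : G.Adj a b := by simpa using hb
        rw [le_antisymm (cl _ _ hb.symm) (cl _ _ hb)]]
    rw [sum_const, card_insert_of_notMem (by simp)]
    simp
  have d5 : ∀ a, G.degree a ≤ 5 := fun a => by
    by_contra hn
    have h5 := cls (fun d => d ^ 2 + 20 - 9 * d) a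
    have h6 := hX a
    have h7 : 2 ≤ X a := by nlinarith
    have h8 : (G.degree a + 1) * X a ≤ ∑ b, X b := h5
    nlinarith
  have h5 : ∑ b, (5 - G.degree b) + 172 = 35 * 5 := by
    rw [← hs, ← sum_add_distrib]
    simp only [Nat.sub_add_cancel (d5 _)]
    simp
  have h6 : ∀ a, 5 - G.degree a = 0 := fun a => by
    have h7 := cls (fun d => 5 - d) a
    have h8 := d5 a
    interval_cases G.degree a <;> omega
  simp [h6] at h5

def cg (k : Fin n → ℕ) : SimpleGraph (Fin n) where
  Adj a b := a ≠ b ∧ k a = k b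
  symm := ⟨fun _ _ h => ⟨h.1.symm, h.2.symm⟩⟩
  loopless := ⟨fun _ h => h.1 rfl⟩

lemma cg_edges (k : Fin n → ℕ) (e : ℕ)
    (h : ∑ a, (univ.filter fun b => a ≠ b ∧ k a = k b).card = 2 * e) :
    (cg k).edgeSet.ncard = e := by
  have := SimpleGraph.sum_degrees_eq_twice_card_edges (cg k)
  rw [← Set.ncard_coe_finset (cg k).edgeFinset, SimpleGraph.coe_edgeFinset] at this
  have h2 : ∑ a, (cg k).degree a = ∑ a, (univ.filter fun b => a ≠ b ∧ k a = k b).card :=
    sum_congr rfl fun a _ => by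
      rw [← SimpleGraph.card_neighborFinset_eq_degree, SimpleGraph.neighborFinset_eq_filter]
      exact congrArg card (by ext b; simp [cg])
  omega

def k1 (a : Fin 35) : ℕ := if a.val < 29 then (a.val + 1) / 5 else 6
def k2 (a : Fin 35) : ℕ := if a.val < 18 then a.val / 6 else if a.val < 28 then (a.val + 2) / 5 else 6

lemma upper : s3 (cg k1) ≤ 74 := by
  have h : {S : Finset (Fin 35) | S.card = 3 ∧ ((cg k1).induce (S : Set (Fin 35))).Connected} ⊆
      ((range 7).biUnion fun i => (univ.filter fun a => k1 a = i).powersetCard 3 :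
        Finset (Finset (Fin 35))) := by
    rintro S ⟨h1, h2⟩
    obtain ⟨a, ha⟩ := h2.nonempty.some
    have hk : ∀ a, k1 a < 7 := by decide
    refine mem_coe.2 (mem_biUnion.2 ⟨k1 a, mem_range.2 (hk a), mem_powersetCard.2 ⟨fun b hb => ?_, h1⟩⟩)
    obtain ⟨w⟩ := h2.preconnected ⟨b, hb⟩ ⟨a, ha⟩
    have : ∀ {x y} (_ : ((cg k1).induce (S : Set (Fin 35))).Walk x y), k1 x.1 = k1 y.1 := by
      intro x y w
      induction w with
      | nil => rfl
      | cons h _ ih => exact h.2.trans ih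
    exact mem_filter.2 ⟨mem_univ _, this w⟩
  refine (Set.ncard_le_ncard h).trans ?_
  rw [Set.ncard_coe_finset]
  refine card_biUnion_le.trans ?_
  simp only [card_powersetCard]
  decide +kernel

theorem result : ∃ p n e : ℕ, p * n < 2 * e ∧ 2 * (e + (p + 2).choose 2) < (p + 1) * n ∧
    (m n (e + (p + 2).choose 2) : ℤ) - m n e ≠ (p * (p + 1) * (p + 2) / 3 : ℕ) := by
  refine ⟨4, 35, 71, by norm_num, by decide, ?_⟩
  have h1 : m 35 71 ≤ 74 := le_trans (Nat.sInf_le (s := {s | ∃ G : SimpleGraph (Fin 35),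
      G.edgeSet.ncard = 71 ∧ s3 G = s}) ⟨cg k1, cg_edges k1 71 (by decide +kernel), rfl⟩) upper
  have h2 : 115 ≤ m 35 86 := by
    obtain ⟨G, hG, h⟩ := Nat.sInf_mem (s := {s | ∃ G : SimpleGraph (Fin 35),
      G.edgeSet.ncard = 86 ∧ s3 G = s}) ⟨_, cg k2, cg_edges k2 86 (by decide +kernel), rfl⟩
    exact (lower G hG).trans h.le
  have h3 : 71 + (4 + 2).choose 2 = 86 := by decide
  rw [h3]
  omega

end Pool.Agent.Results.MP_6d30b5_co.Cex
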